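import Pool.Agent.Helper54.PT.DefsF

/-!
# The formal Selmer groups: addition and torsion
-/

set_option autoImplicit false

namespace Pool.Agent.Helper54.PT

open Polynomial Finset Filter Topology Module

section A78

variable {σ : Type} [Fintype σ] [DecidableEq σ] {dR : σ → ZMod 2} {sR : σ → σ → ZMod 2}
  {A B C : Option σ → ZMod 2} {M : Option σ → ZMod 2 → Submodule (ZMod 2) LS}

theorem te_mem_GD {J : Type} [Fintype J] [DecidableEq J] (X : PData 2 σ)
    (τ : (J → ZMod 2) →+ (J → Option σ → ZMod 2))
    (H : (Option σ → J → ZMod 2) → (Option σ → J → ZMod 2) → (Option σ → ZMod 2) → Prop)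
    (D : Finset X.P) (x : (Option σ → J → ZMod 2) × (D → J → ZMod 2)) :
    x ∈ GD X τ H D ↔ H x.1 (ysum X x.2) (kap X D) ∧ ∀ p j, pcond X τ x.1 x.2 p j = 0 := by
  classical
  unfold GD
  rw [mem_filter]
  exact ⟨fun h => h.2, fun h => ⟨mem_univ _, h⟩⟩

theorem te_zl_add (b b' y y' : Option σ → ZMod 2) (t : Option σ) :
    zl dR sR (b + b') (y + y') t = zl dR sR b y t + zl dR sR b' y' t := by
  cases t with
  | none =>
    simp only [zl, Pi.add_apply, mul_add, sum_add_distrib]
    ring
  | some r =>
    simp only [zl, Pi.add_apply, add_mul, sum_add_distrib]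
    ring

theorem te_zl_split (b y : Option σ → ZMod 2) (t : Option σ) :
    zl dR sR b y t = zl dR sR b 0 t + y t := by
  cases t <;> simp [zl]

theorem te_HM_add {b b' y y' : Option σ → Fin 2 → ZMod 2} {κ : Option σ → ZMod 2}
    (h : HM dR sR M b y κ) (h' : HM dR sR M b' y' κ) : HM dR sR M (b + b') (y + y') κ := by
  intro t
  have := (M t (κ t)).add_mem (h t) (h' t)
  convert this using 1
  refine Prod.ext ?_ ?_
  · funext j
    rfl
  · funext j
    exact te_zl_add (fun s => b s j) (fun s => b' s j) (fun s => y s j) (fun s => y' s j) t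

/-- A7: the formal Selmer groups are closed under addition -/
theorem add_mem_GDF (X : PData 2 σ) (D : Finset X.P) :
    ∀ x ∈ GD X (tauF A B C) (HM dR sR M) D, ∀ y ∈ GD X (tauF A B C) (HM dR sR M) D,
      x + y ∈ GD X (tauF A B C) (HM dR sR M) D := by
  classical
  intro x hx y hy
  rw [te_mem_GD] at hx hy ⊢
  refine ⟨?_, fun p j => ?_⟩
  · have h1 : ysum X (x + y).2 = ysum X x.2 + ysum X y.2 := by
      funext s j
      simp only [ysum, Pi.add_apply, Prod.snd_add, mul_add, sum_add_distrib]
    rw [h1]
    exact te_HM_add hx.1 hy.1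
  · have h1 : pcond X (tauF A B C) (x + y).1 (x + y).2 p j =
        pcond X (tauF A B C) x.1 x.2 p j + pcond X (tauF A B C) y.1 y.2 p j := by
      simp only [pcond, Prod.fst_add, Prod.snd_add, Pi.add_apply, map_add, add_mul,
        sum_add_distrib]
      have h2 : ∀ p' : D, (if p' = p then (0 : ZMod 2) else
          (x.2 p' j + y.2 p' j - (x.2 p j + y.2 p j)) * X.sym p' p) =
          (if p' = p then 0 else (x.2 p' j - x.2 p j) * X.sym p' p) +
          (if p' = p then 0 else (y.2 p' j - y.2 p j) * X.sym p' p) := by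
        intro p'
        split_ifs
        · simp
        · ring
      rw [sum_congr rfl fun p' _ => h2 p', sum_add_distrib]
      ring
    rw [h1, hx.2 p j, hy.2 p j, add_zero]

/-- A8: torsion -/
theorem tor_mem_GDF (hM : LD dR sR A B C M) (X : PData 2 σ) (D : Finset X.P)
    (v : Fin 2 → ZMod 2) :
    tor X (tauF A B C) D v ∈ GD X (tauF A B C) (HM dR sR M) D := by
  classical
  rw [te_mem_GD]
  refine ⟨?_, fun p j => ?_⟩
  · intro t
    have h := hM.tor t (kap X D t) v
    convert h using 1
    refine Prod.ext ?_ ?_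
    · funext j
      rfl
    · funext j
      have h1 : ysum X (fun _ : D => v) t j = kap X D t * v j := by
        simp only [ysum, kap, sum_mul]
        exact sum_coe_sort D (fun p => X.xx p t * v j)
      change zl dR sR (fun s => tauF A B C v j s) (fun s => ysum X (fun _ : D => v) s j) t = _
      rw [te_zl_split, h1]
  · simp only [pcond, tor, sub_self, zero_mul, ite_self, sum_const_zero, add_zero]

end A78

end Pool.Agent.Helper54.PT
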